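import Pool.Agent.Y427.Junc.B

set_option autoImplicit false

/-!
# Monochromatic sums with coefficients `0`, `1`, `2`, every `2` between two `1`s

For every finite colouring of `ℕ` there is a sequence `y` of positive integers such that all sums
`∑ b n * y n` with `b` finitely supported, not zero, with values in `{0, 1, 2}` and such that
`b n = 2` implies `0 < n` and `b (n - 1) = b (n + 1) = 1`, have the same colour.
-/

namespace Pool.Agent.Y427.Junc

open Filter Pool.Agent.H273R3.GR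

attribute [local instance] Ultrafilter.add Ultrafilter.addSemigroup

section build

variable (J : Ultrafilter (ℤ × ℤ)) (P F : Ultrafilter ℤ) (C : Set ℤ)

/-- good partial sums, last coefficient `0` -/
def Good0 (t : ℤ) : Prop := {y | t + y ∈ C} ∈ F

/-- good partial sums, last coefficient `1` -/
def Good1 (t : ℤ) : Prop := {y | t + y ∈ C} ∈ P ∧ {y | t + y ∈ C} ∈ P + F

/-- good partial sums, last coefficient `2` -/
def Good2 (t : ℤ) : Prop :=
  {y | t + y ∈ C} ∈ Ultrafilter.map (linz 2 1) J + P ∧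
    {y | t + y ∈ C} ∈ Ultrafilter.map (linz 2 1) J + (P + F)

/-- a stage of the construction -/
structure St where
  F0 : Finset ℤ
  F1 : Finset ℤ
  F2 : Finset ℤ
  h0 : ∀ t ∈ F0, Good0 F C t
  h1 : ∀ t ∈ F1, Good1 P F C t
  h2 : ∀ t ∈ F2, Good2 J P F C t

variable {J P F C}

theorem trans_lin (i j : ℤ) (t : ℤ) (r : Ultrafilter ℤ) :
    {y | t + y ∈ C} ∈ Ultrafilter.map (linz i j) J + r ↔
      {x : ℤ × ℤ | {y | (t + (i * x.1 + j * x.2)) + y ∈ C} ∈ r} ∈ J := by
  rw [shift_mem, Ultrafilter.mem_map]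
  rfl

theorem step (hP : Ultrafilter.map (linz 1 0) J = P)
    (hF : Ultrafilter.map (linz 0 1) J + P = F) (hFF : F + F = F)
    (h11 : Ultrafilter.map (linz 1 1) J + P = P)
    (h12 : Ultrafilter.map (linz 1 2) J + (Ultrafilter.map (linz 2 1) J + P) = P)
    (σ : St J P F C) :
    ∃ x : ℤ × ℤ, (∀ t ∈ σ.F0, Good1 P F C (t + x.2)) ∧
      (∀ t ∈ σ.F1, t + x.1 ∈ C ∧ Good0 F C (t + x.1) ∧ Good1 P F C (t + (x.1 + x.2)) ∧
        Good2 J P F C (t + (x.1 + 2 * x.2))) ∧
      (∀ t ∈ σ.F2, Good1 P F C (t + (2 * x.1 + x.2))) := by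
  have e0 : ∀ t ∈ σ.F0, {x : ℤ × ℤ | Good1 P F C (t + x.2)} ∈ J := by
    intro t ht
    have g := σ.h0 t ht
    have g1 : {x : ℤ × ℤ | {y | (t + (0 * x.1 + 1 * x.2)) + y ∈ C} ∈ P} ∈ J := by
      rw [← trans_lin, hF]; exact g
    have g2 : {x : ℤ × ℤ | {y | (t + (0 * x.1 + 1 * x.2)) + y ∈ C} ∈ P + F} ∈ J := by
      rw [← trans_lin, ← add_assoc, hF, hFF]; exact g
    filter_upwards [g1, g2] with x hx1 hx2
    simp only [zero_mul, zero_add, one_mul] at hx1 hx2
    exact ⟨hx1, hx2⟩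
  have e1 : ∀ t ∈ σ.F1, {x : ℤ × ℤ | t + x.1 ∈ C ∧ Good0 F C (t + x.1) ∧
      Good1 P F C (t + (x.1 + x.2)) ∧ Good2 J P F C (t + (x.1 + 2 * x.2))} ∈ J := by
    intro t ht
    obtain ⟨ga, gb⟩ := σ.h1 t ht
    have g1 : {x : ℤ × ℤ | t + (1 * x.1 + 0 * x.2) ∈ C} ∈ J := by
      rw [← hP] at ga
      exact ga
    have g2 : {x : ℤ × ℤ | {y | (t + (1 * x.1 + 0 * x.2)) + y ∈ C} ∈ F} ∈ J := by
      rw [← trans_lin, hP]; exact gb
    have g3 : {x : ℤ × ℤ | {y | (t + (1 * x.1 + 1 * x.2)) + y ∈ C} ∈ P} ∈ J := by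
      rw [← trans_lin, h11]; exact ga
    have g4 : {x : ℤ × ℤ | {y | (t + (1 * x.1 + 1 * x.2)) + y ∈ C} ∈ P + F} ∈ J := by
      rw [← trans_lin, ← add_assoc, h11]; exact gb
    have g5 : {x : ℤ × ℤ | {y | (t + (1 * x.1 + 2 * x.2)) + y ∈ C} ∈
        Ultrafilter.map (linz 2 1) J + P} ∈ J := by
      rw [← trans_lin, h12]; exact ga
    have g6 : {x : ℤ × ℤ | {y | (t + (1 * x.1 + 2 * x.2)) + y ∈ C} ∈
        Ultrafilter.map (linz 2 1) J + (P + F)} ∈ J := by
      rw [← trans_lin, ← add_assoc, ← add_assoc, add_assoc _ _ P, h12]; exact gb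
    filter_upwards [g1, g2, g3, g4, g5, g6] with x k1 k2 k3 k4 k5 k6
    simp only [zero_mul, add_zero, one_mul] at k1 k2 k3 k4 k5 k6
    exact ⟨k1, k2, ⟨k3, k4⟩, ⟨k5, k6⟩⟩
  have e2 : ∀ t ∈ σ.F2, {x : ℤ × ℤ | Good1 P F C (t + (2 * x.1 + x.2))} ∈ J := by
    intro t ht
    obtain ⟨ga, gb⟩ := σ.h2 t ht
    have g1 : {x : ℤ × ℤ | {y | (t + (2 * x.1 + 1 * x.2)) + y ∈ C} ∈ P} ∈ J := by
      rw [← trans_lin]; exact ga
    have g2 : {x : ℤ × ℤ | {y | (t + (2 * x.1 + 1 * x.2)) + y ∈ C} ∈ P + F} ∈ J := by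
      rw [← trans_lin]; exact gb
    filter_upwards [g1, g2] with x k1 k2
    simp only [one_mul] at k1 k2
    exact ⟨k1, k2⟩
  have E0 := (Filter.biInter_finset_mem (f := (J : Filter (ℤ × ℤ))) σ.F0 (s := fun t =>
    {x : ℤ × ℤ | Good1 P F C (t + x.2)})).2 e0
  have E1 := (Filter.biInter_finset_mem (f := (J : Filter (ℤ × ℤ))) σ.F1 (s := fun t =>
    {x : ℤ × ℤ | t + x.1 ∈ C ∧ Good0 F C (t + x.1) ∧
      Good1 P F C (t + (x.1 + x.2)) ∧ Good2 J P F C (t + (x.1 + 2 * x.2))})).2 e1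
  have E2 := (Filter.biInter_finset_mem (f := (J : Filter (ℤ × ℤ))) σ.F2 (s := fun t =>
    {x : ℤ × ℤ | Good1 P F C (t + (2 * x.1 + x.2))})).2 e2
  obtain ⟨x, ⟨hx0, hx1⟩, hx2⟩ := Ultrafilter.nonempty_of_mem
    (Filter.inter_mem (Filter.inter_mem E0 E1) E2)
  exact ⟨x, fun t ht => Set.mem_iInter₂.1 hx0 t ht, fun t ht => Set.mem_iInter₂.1 hx1 t ht,
    fun t ht => Set.mem_iInter₂.1 hx2 t ht⟩

end build

/-- Admissible coefficient sequences: values `0`, `1`, `2`, the value `2` only between two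
values `1`. -/
def Adm (b : ℕ → ℤ) : Prop :=
  b 0 = 0 ∧ (∀ n, b n = 0 ∨ b n = 1 ∨ b n = 2) ∧ ∀ n, (b n = 2 → b (n + 1) = 1) ∧
    (b (n + 1) = 2 → b n = 1)

theorem main_int (r : ℕ) (c : ℤ → Fin r) : ∃ (y : ℕ → ℤ) (col : Fin r),
    ∀ b : ℕ → ℤ, Adm b → ∀ n : ℕ, b (n + 1) = 0 → (∃ m ≤ n, b m ≠ 0) →
      0 < ∑ m ∈ Finset.range n, b (m + 1) * y m ∧
      c (∑ m ∈ Finset.range n, b (m + 1) * y m) = col := by
  obtain ⟨J, P, F, hP, hF, hFF, h11, h12, hpos⟩ := junction
  obtain ⟨col, hcol⟩ : ∃ col : Fin r, c ⁻¹' {col} ∈ F := by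
    have hu : (⋃ i ∈ (Set.univ : Set (Fin r)), c ⁻¹' {i}) ∈ F := by
      filter_upwards with x
      simp
    rw [Ultrafilter.finite_biUnion_mem_iff Set.finite_univ] at hu
    obtain ⟨i, -, hi⟩ := hu
    exact ⟨i, hi⟩
  set C : Set ℤ := c ⁻¹' {col} ∩ {z : ℤ | 0 < z} with hC
  have hCF : C ∈ F := Filter.inter_mem hcol hpos
  have hstep := fun σ : St J P F C => step hP hF hFF h11 h12 σ
  choose f hf0 hf1 hf2 using hstep
  let nxt : St J P F C → St J P F C := fun σ =>
    { F0 := σ.F0 ∪ σ.F1.image (fun t => t + (f σ).1)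
      F1 := σ.F0.image (fun t => t + (f σ).2) ∪
        (σ.F1.image (fun t => t + ((f σ).1 + (f σ).2)) ∪
        σ.F2.image (fun t => t + (2 * (f σ).1 + (f σ).2)))
      F2 := σ.F1.image (fun t => t + ((f σ).1 + 2 * (f σ).2))
      h0 := by
        intro t ht
        rw [Finset.mem_union, Finset.mem_image] at ht
        rcases ht with ht | ⟨u, hu, rfl⟩
        · exact σ.h0 t ht
        · exact (hf1 σ u hu).2.1
      h1 := by
        intro t ht
        rw [Finset.mem_union, Finset.mem_union, Finset.mem_image, Finset.mem_image,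
          Finset.mem_image] at ht
        rcases ht with ⟨u, hu, rfl⟩ | ⟨u, hu, rfl⟩ | ⟨u, hu, rfl⟩
        · exact hf0 σ u hu
        · exact (hf1 σ u hu).2.2.1
        · exact hf2 σ u hu
      h2 := by
        intro t ht
        rw [Finset.mem_image] at ht
        obtain ⟨u, hu, rfl⟩ := ht
        exact (hf1 σ u hu).2.2.2 }
  let st0 : St J P F C :=
    { F0 := {0}
      F1 := ∅
      F2 := ∅
      h0 := by
        intro t ht
        rw [Finset.mem_singleton] at ht
        subst ht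
        change {y | 0 + y ∈ C} ∈ F
        simpa using hCF
      h1 := fun t ht => absurd ht (Finset.notMem_empty t)
      h2 := fun t ht => absurd ht (Finset.notMem_empty t) }
  let st : ℕ → St J P F C := fun n => nxt^[n] st0
  have hst : ∀ n, st (n + 1) = nxt (st n) := fun n => Function.iterate_succ_apply' nxt n st0
  let j : ℕ → ℤ × ℤ := fun n => f (st n)
  refine ⟨fun m => (j m).2 + (j (m + 1)).1, col, fun b hb n hbn hne => ?_⟩
  obtain ⟨hb0, hb1, hb2⟩ := hb
  let S : ℕ → ℤ := fun n => ∑ m ∈ Finset.range n, (b m * (j m).1 + b (m + 1) * (j m).2)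
  have hS : ∀ n, S (n + 1) = S n + (b n * (j n).1 + b (n + 1) * (j n).2) := fun n =>
    Finset.sum_range_succ _ _
  have hS2 : ∀ n, S (n + 1) = (∑ m ∈ Finset.range n, b (m + 1) * ((j m).2 + (j (m + 1)).1)) +
      b (n + 1) * (j n).2 := by
    intro n
    induction n with
    | zero => rw [hS]; simp [S, hb0]
    | succ n ih => rw [hS, ih, Finset.sum_range_succ]; ring
  have key : ∀ n : ℕ, (b n = 0 → S n ∈ (st n).F0 ∧ ((∃ m ≤ n, b m ≠ 0) → S n ∈ C)) ∧
      (b n = 1 → S n ∈ (st n).F1) ∧ (b n = 2 → S n ∈ (st n).F2) := by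
    intro n
    induction n with
    | zero =>
      refine ⟨fun _ => ⟨?_, ?_⟩, fun h => ?_, fun h => ?_⟩
      · change S 0 ∈ ({0} : Finset ℤ)
        simp [S]
      · rintro ⟨m, hm, hm2⟩
        have : m = 0 := by omega
        subst this
        exact absurd hb0 hm2
      · omega
      · omega
    | succ n ih =>
      rw [hst, hS]
      refine ⟨fun h => ?_, fun h => ?_, fun h => ?_⟩
      · rw [h, zero_mul, add_zero]
        rcases hb1 n with h1 | h1 | h1
        · rw [h1, zero_mul, add_zero]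
          refine ⟨Finset.mem_union_left _ (ih.1 h1).1, ?_⟩
          rintro ⟨m, hm, hm2⟩
          refine (ih.1 h1).2 ⟨m, ?_, hm2⟩
          rcases Nat.lt_or_ge n m with h3 | h3
          · have : m = n + 1 := by omega
            rw [this] at hm2
            exact absurd h hm2
          · exact h3
        · rw [h1, one_mul]
          exact ⟨Finset.mem_union_right _ (Finset.mem_image_of_mem _ (ih.2.1 h1)),
            fun _ => (hf1 (st n) _ (ih.2.1 h1)).1⟩
        · have := (hb2 n).1 h1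
          omega
      · rw [h, one_mul]
        rcases hb1 n with h1 | h1 | h1
        · rw [h1, zero_mul, zero_add]
          exact Finset.mem_union_left _ (Finset.mem_image_of_mem _ (ih.1 h1).1)
        · rw [h1, one_mul]
          exact Finset.mem_union_right _ (Finset.mem_union_left _
            (Finset.mem_image_of_mem (fun t => t + ((f (st n)).1 + (f (st n)).2)) (ih.2.1 h1)))
        · rw [h1]
          exact Finset.mem_union_right _ (Finset.mem_union_right _
            (Finset.mem_image_of_mem (fun t => t + (2 * (f (st n)).1 + (f (st n)).2))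
              (ih.2.2 h1)))
      · have h1 := (hb2 n).2 h
        rw [h, h1, one_mul]
        exact Finset.mem_image_of_mem (fun t => t + ((f (st n)).1 + 2 * (f (st n)).2))
          (ih.2.1 h1)
  have h3 := ((key (n + 1)).1 hbn).2 (by
    obtain ⟨m, hm, hm2⟩ := hne
    exact ⟨m, by omega, hm2⟩)
  rw [hS2, hbn, zero_mul, add_zero] at h3
  exact ⟨h3.2, h3.1⟩

/-- the theorem for `ℕ` -/
theorem main_nat (r : ℕ) (c : ℕ → Fin r) : ∃ (y : ℕ → ℕ) (col : Fin r), (∀ n, 0 < y n) ∧
    ∀ b : ℕ → ℕ, (∀ n, b n = 0 ∨ b n = 1 ∨ b n = 2) → b 0 ≠ 2 →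
      (∀ n, b n = 2 → b (n + 1) = 1) → (∀ n, b (n + 1) = 2 → b n = 1) →
      ∀ n : ℕ, b n = 0 → (∃ m < n, b m ≠ 0) →
        c (∑ m ∈ Finset.range n, b m * y m) = col := by
  obtain ⟨y, col, h⟩ := main_int r (fun z => c z.toNat)
  have hy : ∀ n, 0 < y n := by
    intro n
    have := (h (fun m => if m = n + 1 then 1 else 0) ⟨by simp, fun m => by
      by_cases hm : m = n + 1
      · simp [hm]
      · simp [hm], fun m => by
      constructor
      · intro h'
        exfalso
        by_cases hm : m = n + 1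
        · simp [hm] at h'
        · simp [hm] at h'
      · intro h'
        exfalso
        by_cases hm : m = n
        · simp [hm] at h'
        · simp [hm] at h'⟩ (n + 1) (by simp) ⟨n + 1, le_refl _, by simp⟩).1
    have e : ∑ m ∈ Finset.range (n + 1), (if m + 1 = n + 1 then (1 : ℤ) else 0) * y m = y n := by
      rw [Finset.sum_eq_single n]
      · simp
      · intro m _ hm
        rw [if_neg (by omega), zero_mul]
      · intro hn
        exact absurd (Finset.mem_range.2 (Nat.lt_succ_self n)) hn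
    rw [e] at this
    exact this
  refine ⟨fun n => (y n).toNat, col, fun n => ?_, ?_⟩
  · have := hy n
    change 0 < (y n).toNat
    omega
  intro b hb h0 h1 h2 n hn hne
  let b' : ℕ → ℤ := fun m => Nat.casesOn m 0 (fun k => (b k : ℤ))
  have hb'0 : b' 0 = 0 := rfl
  have hb'1 : ∀ k, b' (k + 1) = (b k : ℤ) := fun k => rfl
  have hadm : Adm b' := by
    refine ⟨rfl, ?_, ?_⟩
    · intro m
      cases m with
      | zero => left; rfl
      | succ k => rw [hb'1]; have := hb k; omega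
    · intro m
      cases m with
      | zero =>
        rw [hb'1, hb'0]
        refine ⟨fun h => by omega, fun h => ?_⟩
        exact absurd (by exact_mod_cast h) h0
      | succ k =>
        rw [hb'1, hb'1]
        refine ⟨fun h => ?_, fun h => ?_⟩
        · exact_mod_cast h1 k (by exact_mod_cast h)
        · exact_mod_cast h2 k (by exact_mod_cast h)
  obtain ⟨m, hm, hm2⟩ := hne
  have := (h b' hadm n (by rw [hb'1, hn]; rfl) ⟨m + 1, by omega, by
    rw [hb'1]; exact_mod_cast hm2⟩).2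
  rw [← this]
  congr 1
  have e : (∑ m ∈ Finset.range n, b' (m + 1) * y m) =
      ((∑ m ∈ Finset.range n, b m * (y m).toNat : ℕ) : ℤ) := by
    rw [Nat.cast_sum]
    refine Finset.sum_congr rfl fun i _ => ?_
    rw [hb'1, Nat.cast_mul, Int.toNat_of_nonneg (hy i).le]
  rw [e, Int.toNat_natCast]

end Pool.Agent.Y427.Junc
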