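import Pool.Agent.H273R3.GRa

set_option autoImplicit false

/-!
# A commutator-like element in the group of a minimal idempotent

`Prim ω` says that `ω` is an idempotent which is equal to every idempotent below it.  For a
minimal idempotent `e` and ultrafilters `a`, `w` there is an element `X` of the group `e + βM + e`
such that `π X = π e` for every homomorphism `π` with `π w` primitive, and `π X` is the inverse of
`π e + π a + π e` for every homomorphism `π` with `π w = 0` and `π a` idempotent.
-/

namespace Pool.Agent.Y427.Junc

open Filter Pool.Agent.H273R3.GR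

section semigroup

variable {S : Type*} [AddSemigroup S]

theorem sandwich {E k ω : S} (h1 : E + k = k) (h2 : k + E = k)
    (h3 : k + (E + (ω + E)) = E) (hω : ω + ω = ω) :
    (ω + (k + ω)) + (ω + (k + ω)) = ω + (k + ω) := by
  calc (ω + (k + ω)) + (ω + (k + ω)) = ω + (k + ((ω + ω) + (k + ω))) := by
        simp only [add_assoc]
    _ = ω + (k + (ω + (k + ω))) := by rw [hω]
    _ = ω + ((k + E) + (ω + ((E + k) + ω))) := by rw [h1, h2]
    _ = ω + ((k + (E + (ω + E))) + (k + ω)) := by simp only [add_assoc]
    _ = ω + (E + (k + ω)) := by rw [h3]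
    _ = ω + (k + ω) := by rw [← add_assoc E, h1]

/-- the value of the commutator-like element when `ω k ω = ω` -/
theorem X_one {E a ω k i j : S} (hE : E + E = E) (k1 : E + k = k) (k2 : k + E = k)
    (k3 : k + (E + (ω + E)) = E) (hk : ω + (k + ω) = ω)
    (i2 : (E + ((ω + a) + E)) + i = E) (j1 : E + j = j)
    (j2 : (E + ((a + ω) + E)) + j = E) :
    (E + ((a + (ω + a)) + E)) + (i + ((E + (ω + E)) + j)) = E := by
  have e1 : (E + ((a + (ω + a)) + E)) = (E + ((a + ω) + E)) + (k + (E + ((ω + a) + E))) := by
    calc (E + ((a + (ω + a)) + E)) = E + ((a + ((ω + (k + ω)) + a)) + E) := by rw [hk]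
      _ = E + ((a + ((ω + ((E + (k + E)) + ω)) + a)) + E) := by rw [k2, k1]
      _ = (E + ((a + ω) + E)) + (k + (E + ((ω + a) + E))) := by simp only [add_assoc]
  rw [e1]
  calc (E + ((a + ω) + E)) + (k + (E + ((ω + a) + E))) + (i + ((E + (ω + E)) + j))
      = (E + ((a + ω) + E)) + (k + (((E + ((ω + a) + E)) + i) + ((E + (ω + E)) + j))) := by
        simp only [add_assoc]
    _ = (E + ((a + ω) + E)) + (k + (E + ((E + (ω + E)) + j))) := by rw [i2]
    _ = (E + ((a + ω) + E)) + ((k + ((E + E) + (ω + E))) + j) := by simp only [add_assoc]
    _ = (E + ((a + ω) + E)) + (E + j) := by rw [hE, k3]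
    _ = E := by rw [j1, j2]

/-- the value of the commutator-like element when `ω` is invisible and `a` is idempotent -/
theorem X_inv {E a i j : S} (hE : E + E = E) (ha : a + a = a)
    (i2 : (E + (a + E)) + i = E) (j1 : E + j = j) :
    (E + ((a + a) + E)) + (i + ((E + E) + j)) = j := by
  calc (E + ((a + a) + E)) + (i + ((E + E) + j))
      = ((E + ((a + a) + E)) + i) + ((E + E) + j) := by simp only [add_assoc]
    _ = j := by rw [ha, i2, hE, j1, j1]

end semigroup

attribute [local instance] Ultrafilter.add Ultrafilter.addSemigroup

section general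

variable {M : Type*} [AddCommMonoid M]

/-- idempotents that are equal to every idempotent below them -/
def Prim (ω : Ultrafilter M) : Prop :=
  ω + ω = ω ∧ ∀ q : Ultrafilter M, q + q = q → q + ω = q → ω + q = q → q = ω

theorem IsMin.prim {p : Ultrafilter M} (hp : IsMin p) : Prim p :=
  ⟨hp.1, fun _ hq h1 h2 => hp.eq_of_le hq h1 h2⟩

theorem pure_zero_add (q : Ultrafilter M) : (pure 0 : Ultrafilter M) + q = q := by
  ext A
  rw [Pool.Agent.H273R3.GR.mem_add]
  simp

theorem add_pure_zero (q : Ultrafilter M) : q + (pure 0 : Ultrafilter M) = q := by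
  ext A
  rw [Pool.Agent.H273R3.GR.mem_add]
  simp

theorem exists_X {e : Ultrafilter M} (he : IsMin e) (a w : Ultrafilter M) :
    ∃ X : Ultrafilter M, e + X = X ∧ X + e = X ∧
      ∀ (N : Type) [AddCommMonoid N] (π : M →+ N),
        (Prim (Ultrafilter.map π w) → Ultrafilter.map π X = Ultrafilter.map π e) ∧
        (Ultrafilter.map π w = pure 0 →
          Ultrafilter.map π a + Ultrafilter.map π a = Ultrafilter.map π a →
          Ultrafilter.map π X + (Ultrafilter.map π e + (Ultrafilter.map π a +
            Ultrafilter.map π e)) = Ultrafilter.map π e ∧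
          (Ultrafilter.map π e + (Ultrafilter.map π a +
            Ultrafilter.map π e)) + Ultrafilter.map π X = Ultrafilter.map π e) := by
  have hbr : ∀ v : Ultrafilter M, e + (v + e) ∈ G e := fun v =>
    ⟨by rw [← add_assoc, he.1], by rw [add_assoc, add_assoc, he.1]⟩
  obtain ⟨k, ⟨k1, k2⟩, k3, k4⟩ := G_inv he (hbr w)
  obtain ⟨i, ⟨i1, i2⟩, i3, i4⟩ := G_inv he (hbr (w + a))
  obtain ⟨j, ⟨j1, j2⟩, j3, j4⟩ := G_inv he (hbr (a + w))
  refine ⟨(e + ((a + (w + a)) + e)) + (i + ((e + (w + e)) + j)), ?_, ?_, ?_⟩
  · calc e + ((e + ((a + (w + a)) + e)) + (i + ((e + (w + e)) + j)))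
        = ((e + e) + ((a + (w + a)) + e)) + (i + ((e + (w + e)) + j)) := by
          simp only [add_assoc]
      _ = _ := by rw [he.1]
  · calc (e + ((a + (w + a)) + e)) + (i + ((e + (w + e)) + j)) + e
        = (e + ((a + (w + a)) + e)) + (i + ((e + (w + e)) + (j + e))) := by
          simp only [add_assoc]
      _ = _ := by rw [j2]
  · intro N _ π
    have hE : Ultrafilter.map π e + Ultrafilter.map π e = Ultrafilter.map π e := by
      rw [← map_add', he.1]
    constructor
    · intro hw
      have q1 : Ultrafilter.map π e + Ultrafilter.map π k = Ultrafilter.map π k := by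
        rw [← map_add', k1]
      have q2 : Ultrafilter.map π k + Ultrafilter.map π e = Ultrafilter.map π k := by
        rw [← map_add', k2]
      have q3 : Ultrafilter.map π k + (Ultrafilter.map π e + (Ultrafilter.map π w +
          Ultrafilter.map π e)) = Ultrafilter.map π e := by
        rw [← map_add', ← map_add', ← map_add', k3]
      have q4 : Ultrafilter.map π w + (Ultrafilter.map π k + Ultrafilter.map π w) =
          Ultrafilter.map π w := by
        refine hw.2 _ (sandwich q1 q2 q3 hw.1) ?_ ?_
        · rw [add_assoc, add_assoc, hw.1]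
        · rw [← add_assoc, hw.1]
      have q5 : (Ultrafilter.map π e + ((Ultrafilter.map π w + Ultrafilter.map π a) +
          Ultrafilter.map π e)) + Ultrafilter.map π i = Ultrafilter.map π e := by
        rw [← map_add', ← map_add', ← map_add', ← map_add', i4]
      have q6 : Ultrafilter.map π e + Ultrafilter.map π j = Ultrafilter.map π j := by
        rw [← map_add', j1]
      have q7 : (Ultrafilter.map π e + ((Ultrafilter.map π a + Ultrafilter.map π w) +
          Ultrafilter.map π e)) + Ultrafilter.map π j = Ultrafilter.map π e := by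
        rw [← map_add', ← map_add', ← map_add', ← map_add', j4]
      have := X_one hE q1 q2 q3 q4 q5 q6 q7
      rw [← this]
      simp only [map_add']
    · intro hw ha
      have q5 : (Ultrafilter.map π e + (Ultrafilter.map π a +
          Ultrafilter.map π e)) + Ultrafilter.map π i = Ultrafilter.map π e := by
        have := congrArg (Ultrafilter.map π) i4
        rw [map_add', map_add', map_add', map_add', hw, pure_zero_add] at this
        exact this
      have q6 : Ultrafilter.map π e + Ultrafilter.map π j = Ultrafilter.map π j := by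
        rw [← map_add', j1]
      have q7 : (Ultrafilter.map π e + (Ultrafilter.map π a +
          Ultrafilter.map π e)) + Ultrafilter.map π j = Ultrafilter.map π e := by
        have := congrArg (Ultrafilter.map π) j4
        rw [map_add', map_add', map_add', map_add', hw, add_pure_zero] at this
        exact this
      have q8 : Ultrafilter.map π j + (Ultrafilter.map π e + (Ultrafilter.map π a +
          Ultrafilter.map π e)) = Ultrafilter.map π e := by
        have := congrArg (Ultrafilter.map π) j3
        rw [map_add', map_add', map_add', map_add', hw, add_pure_zero] at this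
        exact this
      have hX : Ultrafilter.map π ((e + ((a + (w + a)) + e)) + (i + ((e + (w + e)) + j))) =
          Ultrafilter.map π j := by
        simp only [map_add']
        rw [hw, pure_zero_add, pure_zero_add]
        exact X_inv hE ha q5 q6
      rw [hX]
      exact ⟨q8, q7⟩

end general

end Pool.Agent.Y427.Junc
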