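import Pool.Agent.Y427.Junc.A

set_option autoImplicit false

/-!
# The junction ultrafilter on `ℤ × ℤ`
-/

namespace Pool.Agent.Y427.Junc

open Filter Pool.Agent.H273R3.GR

attribute [local instance] Ultrafilter.add Ultrafilter.addSemigroup

/-- `x ↦ m x` -/
def mulz (m : ℤ) : ℤ →+ ℤ := AddMonoidHom.mulLeft m

/-- `(a, b) ↦ i a + j b` -/
def linz (i j : ℤ) : ℤ × ℤ →+ ℤ where
  toFun x := i * x.1 + j * x.2
  map_zero' := by simp
  map_add' x y := by simp only [Prod.fst_add, Prod.snd_add]; ring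

/-- `x ↦ (k x, l x)` -/
def embz (k l : ℤ) : ℤ →+ ℤ × ℤ where
  toFun x := (k * x, l * x)
  map_zero' := by simp
  map_add' x y := by simp only [Prod.mk_add_mk, mul_add]

theorem map_lin_emb (i j k l : ℤ) (q : Ultrafilter ℤ) :
    Ultrafilter.map (linz i j) (Ultrafilter.map (embz k l) q) =
      Ultrafilter.map (mulz (i * k + j * l)) q := by
  rw [Ultrafilter.map_map]
  congr 1
  funext x
  change i * (k * x) + j * (l * x) = (i * k + j * l) * x
  ring

theorem map_mulz_one (q : Ultrafilter ℤ) : Ultrafilter.map (mulz 1) q = q := by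
  have : (⇑(mulz 1) : ℤ → ℤ) = id := by
    funext x
    change 1 * x = x
    ring
  rw [this, Ultrafilter.map_id]

theorem map_mulz_zero (q : Ultrafilter ℤ) : Ultrafilter.map (mulz 0) q = pure 0 := by
  ext A
  rw [Ultrafilter.mem_map]
  have : (⇑(mulz 0) : ℤ → ℤ) = fun _ => 0 := by
    funext x
    change 0 * x = 0
    ring
  rw [this]
  by_cases h : (0 : ℤ) ∈ A
  · simp only [h, Set.preimage_const_of_mem, Ultrafilter.mem_pure, iff_true]
    exact Filter.univ_mem
  · simp [h]

/-- an idempotent of `βℤ` contains `mℤ` -/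
theorem dvd_mem {m : ℤ} (hm : m ≠ 0) {q : Ultrafilter ℤ} (hq : q + q = q) :
    {x : ℤ | m ∣ x} ∈ q := by
  have hfin : (Set.Ico (0 : ℤ) |m|).Finite := Set.finite_Ico _ _
  have hu : (⋃ c ∈ Set.Ico (0 : ℤ) |m|, {x : ℤ | x % m = c}) ∈ q := by
    filter_upwards with x
    simp only [Set.mem_iUnion, Set.mem_ofPred_eq, Set.mem_Ico, exists_prop]
    exact ⟨x % m, ⟨Int.emod_nonneg _ hm, Int.emod_lt_abs _ hm⟩, rfl⟩
  rw [Ultrafilter.finite_biUnion_mem_iff hfin] at hu
  obtain ⟨c, -, hc⟩ := hu
  have h1 := hc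
  rw [← hq, Pool.Agent.H273R3.GR.mem_add] at h1
  obtain ⟨x, hx1, hx2⟩ := Ultrafilter.nonempty_of_mem (Filter.inter_mem hc h1)
  obtain ⟨y, hy1, hy2⟩ := Ultrafilter.nonempty_of_mem (Filter.inter_mem hc hx2)
  change x % m = c at hx1
  change y % m = c at hy1
  change (x + y) % m = c at hy2
  have hc0 : m ∣ c := by
    have h3 : m ∣ (x + y) - c := by rw [← hy2]; exact Int.dvd_self_sub_emod
    have h4 : m ∣ x - c := by rw [← hx1]; exact Int.dvd_self_sub_emod
    have h5 : m ∣ y - c := by rw [← hy1]; exact Int.dvd_self_sub_emod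
    have h6 := dvd_sub (dvd_add h4 h5) h3
    have e : (x - c) + (y - c) - ((x + y) - c) = -c := by ring
    rw [e] at h6
    exact (dvd_neg.1 h6)
  filter_upwards [hc] with z hz
  change z % m = c at hz
  have h7 : m ∣ z - c := by rw [← hz]; exact Int.dvd_self_sub_emod
  have := dvd_add h7 hc0
  simpa using this

theorem map_mulz_inj {m : ℤ} (hm : m ≠ 0) :
    Function.Injective (Ultrafilter.map (mulz m) : Ultrafilter ℤ → Ultrafilter ℤ) := by
  intro a b hab
  have h3 : Function.Injective (mulz m) := by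
    intro x y hxy
    have : m * x = m * y := hxy
    exact mul_left_cancel₀ hm this
  have h4 : Filter.map (mulz m) (a : Filter ℤ) = Filter.map (mulz m) (b : Filter ℤ) := by
    have := congrArg (fun u : Ultrafilter ℤ => (u : Filter ℤ)) hab
    simpa using this
  exact Ultrafilter.coe_injective (Filter.map_injective h3 h4)

theorem Prim.mulz {m : ℤ} (hm : m ≠ 0) {p : Ultrafilter ℤ} (hp : Prim p) :
    Prim (Ultrafilter.map (mulz m) p) := by
  refine ⟨by rw [← map_add', hp.1], fun q hq h1 h2 => ?_⟩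
  set q' : Ultrafilter ℤ := Ultrafilter.map (fun x => x / m) q with hq'
  have hqq' : Ultrafilter.map (Junc.mulz m) q' = q := by
    ext A
    rw [hq', Ultrafilter.map_map, Ultrafilter.mem_map]
    have h3 := dvd_mem hm hq
    have key : ∀ x : ℤ, m ∣ x → (⇑(Junc.mulz m) ∘ fun x => x / m) x = x := by
      intro x hx
      change m * (x / m) = x
      exact Int.mul_ediv_cancel' hx
    constructor
    · intro h
      filter_upwards [h, h3] with x hx hx3
      change (⇑(Junc.mulz m) ∘ fun x => x / m) x ∈ A at hx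
      rwa [key x hx3] at hx
    · intro h
      filter_upwards [h, h3] with x hx hx3
      change (⇑(Junc.mulz m) ∘ fun x => x / m) x ∈ A
      rwa [key x hx3]
  have hinj := map_mulz_inj hm
  have e1 : q' + q' = q' := hinj (by rw [map_add', hqq', hq])
  have e2 : q' + p = q' := hinj (by rw [map_add', hqq', h1])
  have e3 : p + q' = q' := hinj (by rw [map_add', hqq', h2])
  rw [← hqq', hp.2 _ e1 e2 e3]

/-- there is a minimal idempotent of `βℤ` at `+∞` -/
theorem exists_min_pos : ∃ p : Ultrafilter ℤ, IsMin p ∧ ∀ N : ℤ, {z : ℤ | N < z} ∈ p := by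
  obtain ⟨U, hU, hFS⟩ := Hindman.exists_idempotent_ultrafilter_le_FS (Stream'.const 1 : Stream' ℤ)
  have key : ∀ (a : Stream' ℤ) (m : ℤ), m ∈ Hindman.FS a → (∀ n, a.get n = 1) → 0 < m := by
    intro a m h
    induction h with
    | head' a =>
      intro h2
      have : a.head = 1 := h2 0
      rw [this]; norm_num
    | tail' a m h ih =>
      intro h2
      exact ih (fun n => h2 (n + 1))
    | cons' a m h ih =>
      intro h2
      have h3 : a.head = 1 := h2 0
      have h5 := ih (fun n => h2 (n + 1))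
      rw [h3]
      omega
  have h0 : {z : ℤ | 0 < z} ∈ U := by
    filter_upwards [hFS] with m hm
    exact key _ m hm (fun n => rfl)
  have hN : ∀ N : ℕ, {z : ℤ | (N : ℤ) < z} ∈ U := by
    intro N
    induction N with
    | zero => exact_mod_cast h0
    | succ N ih =>
      rw [← hU, Pool.Agent.H273R3.GR.mem_add]
      filter_upwards [h0] with x hx
      change 0 < x at hx
      change {y : ℤ | ((N + 1 : ℕ) : ℤ) < x + y} ∈ U
      filter_upwards [ih] with y hy
      change (N : ℤ) < y at hy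
      push_cast
      omega
  obtain ⟨p, hp, -, h2⟩ := exists_isMin_le hU
  refine ⟨p, hp, fun N => ?_⟩
  rw [← h2, Pool.Agent.H273R3.GR.mem_add]
  filter_upwards with x
  filter_upwards [hN (N - x).toNat] with y hy
  change ((N - x).toNat : ℤ) < y at hy
  change N < x + y
  omega

/-- the main algebraic theorem -/
theorem junction : ∃ (J : Ultrafilter (ℤ × ℤ)) (P F : Ultrafilter ℤ),
    Ultrafilter.map (linz 1 0) J = P ∧
    Ultrafilter.map (linz 0 1) J + P = F ∧
    F + F = F ∧
    Ultrafilter.map (linz 1 1) J + P = P ∧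
    Ultrafilter.map (linz 1 2) J + (Ultrafilter.map (linz 2 1) J + P) = P ∧
    {z : ℤ | 0 < z} ∈ F := by
  obtain ⟨p, hp, hpos⟩ := exists_min_pos
  have hpp : Prim p := IsMin.prim hp
  have p2 : Prim (Ultrafilter.map (mulz 2) p) := hpp.mulz (by norm_num)
  have p3 : Prim (Ultrafilter.map (mulz 3) p) := hpp.mulz (by norm_num)
  have pn : Prim (Ultrafilter.map (mulz (-1)) p) := hpp.mulz (by norm_num)
  have hPS : Ultrafilter.map (embz 1 0) p + Ultrafilter.map (embz 1 0) p =
      Ultrafilter.map (embz 1 0) p := by rw [← map_add', hp.1]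
  obtain ⟨e, he, he1, he2⟩ := exists_isMin_le hPS
  -- `π e = p` for `π = x, x + y, x + 2 y`
  have hpe : ∀ j : ℤ, Ultrafilter.map (linz 1 j) e = p := by
    intro j
    refine hp.eq_of_le ?_ ?_ ?_
    · rw [← map_add', he.1]
    · have := congrArg (Ultrafilter.map (linz 1 j)) he2
      rw [map_add', map_lin_emb, show (1 * 1 + j * 0 : ℤ) = 1 by ring, map_mulz_one] at this
      exact this
    · have := congrArg (Ultrafilter.map (linz 1 j)) he1
      rw [map_add', map_lin_emb, show (1 * 1 + j * 0 : ℤ) = 1 by ring, map_mulz_one] at this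
      exact this
  have hde : Ultrafilter.map (linz 2 1) e = Ultrafilter.map (mulz 2) p := by
    refine p2.2 _ ?_ ?_ ?_
    · rw [← map_add', he.1]
    · have := congrArg (Ultrafilter.map (linz 2 1)) he2
      rw [map_add', map_lin_emb, show (2 * 1 + 1 * 0 : ℤ) = 2 by ring] at this
      exact this
    · have := congrArg (Ultrafilter.map (linz 2 1)) he1
      rw [map_add', map_lin_emb, show (2 * 1 + 1 * 0 : ℤ) = 2 by ring] at this
      exact this
  set s : Ultrafilter ℤ := Ultrafilter.map (linz 0 1) e with hs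
  have hss : s + s = s := by rw [hs, ← map_add', he.1]
  obtain ⟨X1, x1l, x1r, hX1⟩ := exists_X he (Ultrafilter.map (embz 1 0) s)
    (Ultrafilter.map (embz 0 1) p)
  obtain ⟨X2, x2l, x2r, hX2⟩ := exists_X he (Ultrafilter.map (embz 2 0) p)
    (Ultrafilter.map (embz 2 (-1)) p)
  -- projections of `X1`
  have a1 := (hX1 ℤ (linz 1 0)).2 (by rw [map_lin_emb]; exact map_mulz_zero p)
    (by rw [map_lin_emb, show (1 * 1 + 0 * 0 : ℤ) = 1 by ring, map_mulz_one, hss])
  rw [map_lin_emb, show (1 * 1 + 0 * 0 : ℤ) = 1 by ring, map_mulz_one, hpe] at a1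
  have a2 := (hX1 ℤ (linz 0 1)).1 (by
    rw [map_lin_emb, show (0 * 0 + 1 * 1 : ℤ) = 1 by ring, map_mulz_one]; exact hpp)
  have a3 := (hX1 ℤ (linz 1 1)).1 (by
    rw [map_lin_emb, show (1 * 0 + 1 * 1 : ℤ) = 1 by ring, map_mulz_one]; exact hpp)
  have a4 := (hX1 ℤ (linz 2 1)).1 (by
    rw [map_lin_emb, show (2 * 0 + 1 * 1 : ℤ) = 1 by ring, map_mulz_one]; exact hpp)
  have a5 := (hX1 ℤ (linz 1 2)).1 (by
    rw [map_lin_emb, show (1 * 0 + 2 * 1 : ℤ) = 2 by ring]; exact p2)
  -- projections of `X2`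
  have b1 := (hX2 ℤ (linz 1 0)).1 (by
    rw [map_lin_emb, show (1 * 2 + 0 * -1 : ℤ) = 2 by ring]; exact p2)
  have b2 := (hX2 ℤ (linz 0 1)).1 (by
    rw [map_lin_emb, show (0 * 2 + 1 * -1 : ℤ) = -1 by ring]; exact pn)
  have b3 := (hX2 ℤ (linz 1 1)).1 (by
    rw [map_lin_emb, show (1 * 2 + 1 * -1 : ℤ) = 1 by ring, map_mulz_one]; exact hpp)
  have b4 := (hX2 ℤ (linz 2 1)).1 (by
    rw [map_lin_emb, show (2 * 2 + 1 * -1 : ℤ) = 3 by ring]; exact p3)
  have b5 := (hX2 ℤ (linz 1 2)).2 (by
    rw [map_lin_emb, show (1 * 2 + 2 * -1 : ℤ) = 0 by ring]; exact map_mulz_zero p)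
    (by rw [map_lin_emb, show (1 * 2 + 2 * 0 : ℤ) = 2 by ring, p2.1])
  rw [map_lin_emb, show (1 * 2 + 2 * 0 : ℤ) = 2 by ring, hpe] at b5
  rw [← hs] at a2 b2
  rw [hpe] at a3 a5 b1 b3
  rw [hde] at a4 b4
  set P : Ultrafilter ℤ := Ultrafilter.map (linz 1 0) X1 with hP
  set B : Ultrafilter ℤ := Ultrafilter.map (linz 1 2) X2 with hB
  have hPp : P + p = P := by
    have := congrArg (Ultrafilter.map (linz 1 0)) x1r
    rw [map_add', hpe] at this
    exact this
  have hpP : p + P = P := by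
    have := congrArg (Ultrafilter.map (linz 1 0)) x1l
    rw [map_add', hpe] at this
    exact this
  have hBp : B + p = B := by
    have := congrArg (Ultrafilter.map (linz 1 2)) x2r
    rw [map_add', hpe] at this
    exact this
  have hpB : p + B = B := by
    have := congrArg (Ultrafilter.map (linz 1 2)) x2l
    rw [map_add', hpe] at this
    exact this
  have hPsP : P + (s + P) = P := by
    calc P + (s + P) = (P + (p + (s + p))) + P := by
          rw [add_assoc, add_assoc, add_assoc, hpP, ← add_assoc P p, hPp]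
      _ = P := by rw [a1.1, hpP]
  refine ⟨X1 + X2, P, s + P, ?_, ?_, ?_, ?_, ?_, ?_⟩
  · rw [map_add', b1, hPp]
  · rw [map_add', a2, b2, hss]
  · rw [add_assoc, hPsP]
  · rw [map_add', a3, b3, hp.1, hpP]
  · rw [map_add', map_add', a5, b4, a4, p2.1, hpB]
    calc B + (Ultrafilter.map (mulz 2) p + P)
        = (B + (p + (Ultrafilter.map (mulz 2) p + p))) + P := by
          rw [add_assoc, add_assoc, add_assoc, hpP, ← add_assoc B p, hBp]
      _ = P := by rw [b5.1, hpP]
  · rw [← hPp, ← add_assoc, Pool.Agent.H273R3.GR.mem_add]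
    filter_upwards with x
    filter_upwards [hpos (-x)] with y hy
    change -x < y at hy
    change 0 < x + y
    omega

end Pool.Agent.Y427.Junc
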